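import Mathlib

/-!
# Project ESM: primes above an unramified prime number in a Galois extension of the rationals
-/

set_option autoImplicit false

namespace Pool.Agent.Q299.ESM

open NumberField IsDedekindDomain

section

variable {K : Type} [Field K] [NumberField K]

theorem liesOver {P : Ideal (𝓞 K)} [hP : P.IsPrime] {l : ℕ} (hl : l.Prime) (h : (l : 𝓞 K) ∈ P) :
    P.LiesOver (Ideal.span {(l : ℤ)}) := by
  constructor
  have hmax : (Ideal.span {(l : ℤ)}).IsMaximal := by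
    have h1 : Prime (l : ℤ) := Nat.prime_iff_prime_int.1 hl
    exact PrincipalIdealRing.isMaximal_of_irreducible h1.irreducible
  apply hmax.eq_of_le
  · have : (P.under ℤ).IsPrime := Ideal.IsPrime.under ℤ P
    exact this.ne_top
  · rw [Ideal.span_singleton_le_iff_mem, Ideal.mem_comap]
    simpa using h

variable [IsGalois ℚ K]

/-- The Galois group acts transitively on the primes above `l`. -/
theorem trans_above {P Q : Ideal (𝓞 K)} [hP : P.IsPrime] [hQ : Q.IsPrime] {l : ℕ} (hl : l.Prime) (h : (l : 𝓞 K) ∈ P)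
    (h' : (l : 𝓞 K) ∈ Q) : ∃ g : K ≃ₐ[ℚ] K, ∀ x : 𝓞 K, x ∈ P ↔ g • x ∈ Q := by
  have h1 := liesOver hl h
  have h2 := liesOver hl h'
  obtain ⟨g, hg⟩ := Ideal.exists_smul_eq_of_isGaloisGroup (Ideal.span {(l : ℤ)}) P Q (K ≃ₐ[ℚ] K)
  refine ⟨g, fun x => ?_⟩
  rw [← hg, Ideal.mem_pointwise_smul_iff_inv_smul_mem, inv_smul_smul]

/-- An element all conjugates of which lie in `w` is divisible by the unramified prime `l`. -/
theorem dvd_of_all {l : ℕ} (hl : l.Prime) (hsq : Squarefree (Ideal.span {(l : 𝓞 K)})) {w : Ideal (𝓞 K)} [hw : w.IsPrime]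
    (hwl : (l : 𝓞 K) ∈ w) {x : 𝓞 K} (hx : ∀ g : K ≃ₐ[ℚ] K, g • x ∈ w) : (l : 𝓞 K) ∣ x := by
  have h1 : x ∈ (Ideal.span {(l : 𝓞 K)}).radical := by
    rw [Ideal.radical_eq_sInf, Ideal.mem_sInf]
    rintro P ⟨hP1, hP2⟩
    have hlP : (l : 𝓞 K) ∈ P := hP1 (Ideal.mem_span_singleton_self _)
    obtain ⟨g, hg⟩ := trans_above hl hlP hwl
    exact (hg x).2 (hx g)
  obtain ⟨n, hn⟩ := h1
  have h2 : Ideal.span {(l : 𝓞 K)} ∣ (Ideal.span {x}) ^ n := by
    rw [Ideal.dvd_iff_le, Ideal.span_singleton_pow, Ideal.span_singleton_le_iff_mem]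
    exact hn
  have h3 := hsq.isRadical n _ h2
  rw [Ideal.dvd_iff_le, Ideal.span_singleton_le_iff_mem, Ideal.mem_span_singleton] at h3
  exact h3

end

/-- Divisibility by a natural number descends along an embedding of fields. -/
theorem dvd_of_map {L K : Type} [Field L] [NumberField L] [Field K] [NumberField K] (em : L →+* K) {l : ℕ} (hl : l ≠ 0)
    {a : 𝓞 L} (h : (l : 𝓞 K) ∣ RingOfIntegers.mapRingHom em a) : (l : 𝓞 L) ∣ a := by
  obtain ⟨t, ht⟩ := h
  have hl' : (l : L) ≠ 0 := Nat.cast_ne_zero.2 hl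
  have hlK : (l : K) ≠ 0 := Nat.cast_ne_zero.2 hl
  have h1 : em ((a : L) / l) = (t : K) := by
    have h2 := congrArg (fun z : 𝓞 K => (z : K)) ht
    simp only [map_mul, map_natCast] at h2
    have h3 : ((RingOfIntegers.mapRingHom em a : 𝓞 K) : K) = em (a : L) := rfl
    rw [h3] at h2
    rw [map_div₀, map_natCast, h2, mul_div_cancel_left₀ _ hlK]
  have h2 : IsIntegral ℤ ((a : L) / l) := by
    have h3 : IsIntegral ℤ (em.toIntAlgHom ((a : L) / l)) := by
      have h4 : em.toIntAlgHom ((a : L) / l) = (t : K) := h1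
      rw [h4]
      exact RingOfIntegers.isIntegral_coe t
    exact (isIntegral_algHom_iff em.toIntAlgHom em.injective).1 h3
  obtain ⟨b, hb⟩ : ∃ b : 𝓞 L, (b : L) = (a : L) / l := ⟨⟨_, h2⟩, rfl⟩
  refine ⟨b, ?_⟩
  have h6 : algebraMap (𝓞 L) L a = algebraMap (𝓞 L) L ((l : 𝓞 L) * b) := by
    rw [map_mul, map_natCast]
    show (a : L) = l * (b : L)
    rw [hb, mul_div_cancel₀ _ hl']
  exact FaithfulSMul.algebraMap_injective (𝓞 L) L h6

/-- Divisibility and coordinates. -/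
theorem dvd_coord {L : Type} [Field L] [NumberField L] {n : ℕ} (bs : Module.Basis (Fin n) ℤ (𝓞 L)) (l : ℕ)
    (x : Fin n → ℤ) : (l : 𝓞 L) ∣ ∑ j, x j • bs j ↔ ∀ j, (l : ℤ) ∣ x j := by
  constructor
  · rintro ⟨t, ht⟩ j
    have h1 := congrArg (fun z => bs.repr z j) ht
    have h2 : bs.repr (∑ j, x j • bs j) j = x j := by
      rw [bs.repr_sum_self]
    have h3 : (l : 𝓞 L) * t = (l : ℤ) • t := by
      simp
    rw [h2, h3, map_smul, Finsupp.smul_apply, smul_eq_mul] at h1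
    exact ⟨_, h1⟩
  · intro h
    apply Finset.dvd_sum
    intro j _
    obtain ⟨t, ht⟩ := h j
    rw [ht, mul_smul]
    refine ⟨t • bs j, ?_⟩
    simp

end Pool.Agent.Q299.ESM
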