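import Mathlib

/-!
# Project ESM: the number of the functions compatible with a permutation and the Frobenius map
-/

set_option autoImplicit false

namespace Pool.Agent.Q299.ESM

open Finset

section

variable {k V : Type} [CommRing k] [IsDomain k] [Finite k] [Finite V] (l : ℕ) (F : V → V)

/-- The functions `c` with `c ∘ F = c ^ l` which agree with `z` outside `S`. -/
def Eq0 (S : Finset V) (z : V → k) : Set (V → k) := {c | (∀ s, c (F s) = c s ^ l) ∧ ∀ s, s ∉ S → c s = z s}

theorem pow_iter {c : V → k} (hc : ∀ s, c (F s) = c s ^ l) (s : V) (i : ℕ) : c (F^[i] s) = c s ^ l ^ i := by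
  induction i with
  | zero => simp
  | succ i ih => rw [Function.iterate_succ_apply', hc, ih, ← pow_mul, pow_succ]

/-- The roots of `x ^ N = x`. -/
theorem card_roots_le (N : ℕ) (hN : 2 ≤ N) : {x : k | x ^ N = x}.ncard ≤ N := by
  classical
  have h0 : (Polynomial.X ^ N - Polynomial.X : Polynomial k) ≠ 0 := by
    intro h
    have h1 := congrArg (fun p => Polynomial.coeff p N) h
    simp only [Polynomial.coeff_sub, Polynomial.coeff_X_pow, Polynomial.coeff_X, Polynomial.coeff_zero, if_true] at h1
    rw [if_neg (by omega)] at h1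
    simp at h1
  have h1 : {x : k | x ^ N = x} ⊆ ((Polynomial.X ^ N - Polynomial.X : Polynomial k).roots.toFinset : Set k) := by
    intro x hx
    rw [Finset.mem_coe, Multiset.mem_toFinset, Polynomial.mem_roots h0]
    simp only [Set.mem_setOf_eq] at hx
    simp [Polynomial.IsRoot, hx]
  refine le_trans (Set.ncard_le_ncard h1 (Finset.finite_toSet _)) ?_
  rw [Set.ncard_coe_finset]
  refine le_trans (Multiset.toFinset_card_le _) (le_trans (Polynomial.card_roots' _) ?_)
  refine le_trans (Polynomial.natDegree_sub_le _ _) ?_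
  rw [Polynomial.natDegree_X_pow]
  exact max_le le_rfl (le_trans (Polynomial.natDegree_X_le) (by omega))

/-- The orbit of `s`. -/
noncomputable def orb (s : V) : Finset V := by
  classical
  exact (Finset.range (Function.minimalPeriod F s)).image (fun i => F^[i] s)

theorem card_orb (s : V) : (orb F s).card = Function.minimalPeriod F s := by
  classical
  unfold orb
  rw [card_image_of_injOn, card_range]
  intro i hi j hj hij
  simp only [coe_range, Set.mem_Iio] at hi hj
  exact (Function.iterate_eq_iterate_iff_of_lt_minimalPeriod hi hj).1 hij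

theorem mem_orb {F : V → V} {s x : V} (hx : x ∈ orb F s) : ∃ i, F^[i] s = x := by
  classical
  unfold orb at hx
  obtain ⟨i, -, hi⟩ := mem_image.1 hx
  exact ⟨i, hi⟩

theorem per_pos {F : V → V} (hF : Function.Injective F) (s : V) : 0 < Function.minimalPeriod F s := by
  have h1 := hF.mem_periodicPts s
  exact Function.minimalPeriod_pos_of_mem_periodicPts h1

theorem orb_sub {F : V → V} {S : Finset V} (hS : ∀ s, s ∈ S ↔ F s ∈ S) {s : V} (hs : s ∈ S) : orb F s ⊆ S := by
  intro x hx
  obtain ⟨i, rfl⟩ := mem_orb hx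
  clear hx
  induction i with
  | zero => exact hs
  | succ i ih =>
    rw [Function.iterate_succ_apply']
    exact (hS _).1 ih

theorem orb_stable {F : V → V} (hF : Function.Injective F) (s x : V) : x ∈ orb F s ↔ F x ∈ orb F s := by
  classical
  have hp := per_pos hF s
  have hper : F^[Function.minimalPeriod F s] s = s := Function.iterate_minimalPeriod
  unfold orb
  simp only [mem_image, mem_range]
  constructor
  · rintro ⟨i, hi, rfl⟩
    rcases Nat.lt_or_ge (i + 1) (Function.minimalPeriod F s) with h | h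
    · exact ⟨i + 1, h, Function.iterate_succ_apply' F i s⟩
    · refine ⟨0, hp, ?_⟩
      rw [← Function.iterate_succ_apply' F i s]
      have h1 : i + 1 = Function.minimalPeriod F s := by omega
      rw [Nat.succ_eq_add_one, h1, hper]
      rfl
  · rintro ⟨i, hi, h⟩
    rcases Nat.eq_zero_or_pos i with h0 | h0
    · subst h0
      refine ⟨Function.minimalPeriod F s - 1, by omega, hF ?_⟩
      rw [← Function.iterate_succ_apply' F, Nat.succ_eq_add_one, Nat.sub_add_cancel hp, hper, ← h]
      rfl
    · refine ⟨i - 1, by omega, hF ?_⟩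
      rw [← Function.iterate_succ_apply' F, Nat.succ_eq_add_one, Nat.sub_add_cancel h0, h]

/-- The functions with a given value at `s`. -/
theorem fiber_sub {F : V → V} {S : Finset V} {z c0 : V → k} {s : V} (hc0 : c0 ∈ Eq0 l F S z) [DecidableEq V] :
    {c | c ∈ Eq0 l F S z ∧ c s = c0 s} ⊆ Eq0 l F (S \ orb F s) c0 := by
  rintro c ⟨⟨h1, h2⟩, h3⟩
  refine ⟨h1, fun x hx => ?_⟩
  rw [mem_sdiff, not_and_or, not_not] at hx
  rcases hx with hx | hx
  · rw [h2 x hx, hc0.2 x hx]
  · obtain ⟨i, rfl⟩ := mem_orb hx
    rw [pow_iter l F h1, pow_iter l F hc0.1, h3]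

theorem cnt {F : V → V} (hF : Function.Injective F) (hl : 2 ≤ l) (n : ℕ) : ∀ (S : Finset V), S.card = n →
    (∀ s, s ∈ S ↔ F s ∈ S) → ∀ z : V → k, (Eq0 l F S z).ncard ≤ l ^ n := by
  classical
  induction n using Nat.strong_induction_on with
  | _ n ih =>
  intro S hn hS z
  rcases S.eq_empty_or_nonempty with h0 | ⟨s, hs⟩
  · subst h0
    have h1 : Eq0 l F ∅ z ⊆ {z} := by
      rintro c ⟨-, h2⟩
      rw [Set.mem_singleton_iff]
      ext x
      exact h2 x (by simp)
    refine le_trans (Set.ncard_le_ncard h1 (Set.finite_singleton _)) ?_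
    rw [Set.ncard_singleton]
    exact Nat.one_le_pow _ _ (by omega)
  · set m := Function.minimalPeriod F s with hm
    have hmpos : 0 < m := per_pos hF s
    have hsub := orb_sub hS hs
    have hcard : (S \ orb F s).card = n - m := by
      rw [card_sdiff_of_subset hsub, card_orb, hn]
    have hmn : m ≤ n := by
      rw [← hn, hm, ← card_orb]
      exact card_le_card hsub
    have hfib : ∀ a : k, {c | c ∈ Eq0 l F S z ∧ c s = a}.ncard ≤ l ^ (n - m) := by
      intro a
      by_cases h : ∃ c0 ∈ Eq0 l F S z, c0 s = a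
      · obtain ⟨c0, h1, rfl⟩ := h
        refine le_trans (Set.ncard_le_ncard (fiber_sub l h1) (Set.toFinite _)) ?_
        refine ih (n - m) (by omega) _ hcard ?_ c0
        intro x
        rw [mem_sdiff, mem_sdiff, ← orb_stable hF, ← hS]
      · have h1 : {c | c ∈ Eq0 l F S z ∧ c s = a} = ∅ := by
          ext c
          simp only [Set.mem_setOf_eq, Set.mem_empty_iff_false, iff_false]
          exact fun h2 => h ⟨c, h2⟩
        rw [h1, Set.ncard_empty]
        exact Nat.zero_le _
    have hroots : {x : k | x ^ l ^ m = x}.ncard ≤ l ^ m := by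
      apply card_roots_le
      calc 2 ≤ l := hl
        _ = l ^ 1 := (pow_one l).symm
        _ ≤ l ^ m := Nat.pow_le_pow_right (by omega) hmpos
    have hfin := Set.toFinite {x : k | x ^ l ^ m = x}
    have hunion : Eq0 l F S z ⊆ ⋃ a ∈ hfin.toFinset, {c | c ∈ Eq0 l F S z ∧ c s = a} := by
      intro c hc
      rw [Set.mem_iUnion₂]
      refine ⟨c s, ?_, hc, rfl⟩
      rw [Set.Finite.mem_toFinset]
      have h1 := pow_iter l F hc.1 s m
      rw [hm, Function.iterate_minimalPeriod] at h1
      exact h1.symm
    calc (Eq0 l F S z).ncard ≤ (⋃ a ∈ hfin.toFinset, {c | c ∈ Eq0 l F S z ∧ c s = a}).ncard :=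
          Set.ncard_le_ncard hunion (Set.toFinite _)
      _ ≤ ∑ a ∈ hfin.toFinset, {c | c ∈ Eq0 l F S z ∧ c s = a}.ncard := Finset.set_ncard_biUnion_le _ _
      _ ≤ ∑ a ∈ hfin.toFinset, l ^ (n - m) := sum_le_sum fun a _ => hfib a
      _ = hfin.toFinset.card * l ^ (n - m) := by rw [sum_const, smul_eq_mul]
      _ ≤ l ^ m * l ^ (n - m) := by
        apply Nat.mul_le_mul_right
        rw [← Set.ncard_eq_toFinset_card _ hfin]
        exact hroots
      _ = l ^ n := by rw [← pow_add, Nat.add_sub_cancel' hmn]

end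

end Pool.Agent.Q299.ESM
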