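import Pool.Agent.Q161.ESM.Stm2

/-!
# Project ESM, job RPX: representatives of the orbits and the fields of their stabilizers
-/

set_option autoImplicit false

namespace Pool.Agent.Q299.ESM

open Pool.Agent.Q161.ESM

theorem rpx : S_RPX := by
  intro K _ _ _ V _ _ _
  classical
  let G := K ≃ₐ[ℚ] K
  let ι := MulAction.orbitRel.Quotient G V
  have hfin : Finite ι := Quotient.finite _
  let rp : ι → V := fun i => Quotient.out i
  refine ⟨ι, Fintype.ofFinite ι, Classical.decEq ι,
    fun i => ↥(IntermediateField.fixedField (MulAction.stabilizer G (rp i))),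
    fun i => inferInstance, fun i => NumberField.of_intermediateField _, fun i => algebraMap _ K, rp, ?_, ?_⟩
  · intro i x
    constructor
    · intro h
      have h1 : x ∈ IntermediateField.fixedField (MulAction.stabilizer G (rp i)) := by
        rw [IntermediateField.mem_fixedField_iff]
        intro g hg
        exact h g (MulAction.mem_stabilizer_iff.1 hg)
      exact ⟨⟨x, h1⟩, rfl⟩
    · rintro ⟨y, rfl⟩ g hg
      have h1 := (IntermediateField.mem_fixedField_iff _ _).1 y.2 g (MulAction.mem_stabilizer_iff.2 hg)
      exact h1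
  · intro t
    refine ⟨Quotient.mk _ t, ?_, ?_⟩
    · have h1 : Quotient.mk (MulAction.orbitRel G V) (rp (Quotient.mk _ t)) = Quotient.mk _ t := Quotient.out_eq _
      have h2 := Quotient.exact h1
      obtain ⟨g, hg⟩ := (MulAction.orbitRel_apply.1 h2)
      refine ⟨g⁻¹, ?_⟩
      show g⁻¹ • rp (Quotient.mk _ t) = t
      rw [← hg, inv_smul_smul]
    · rintro i ⟨g, hg⟩
      have h1 : Quotient.mk (MulAction.orbitRel G V) (rp i) = i := Quotient.out_eq i
      rw [← h1]
      apply Quotient.sound
      refine MulAction.orbitRel_apply.2 ⟨g⁻¹, ?_⟩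
      show g⁻¹ • t = rp i
      rw [← hg, inv_smul_smul]

end Pool.Agent.Q299.ESM
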