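import Pool.Agent.Q161.ESM.Stm2
import Pool.Agent.Q299.ESM.Cnt

/-!
# Project ESM, job LCT: the number of the functions of type `t` with given characters
-/

set_option autoImplicit false

namespace Pool.Agent.Q299.ESM

open Finset Pool.Agent.Q161.ESM

section

variable {k V : Type} [Field k] [Fintype k] [AddCommGroup V] [Fintype V] [DecidableEq V]

/-- The group of the quotients. -/
def UU (k : Type) {V : Type} [Field k] (l : ℕ) (F : V → V) (S' : Finset V) : Subgroup (V → kˣ) where
  carrier := {u | (∀ s, u (F s) = u s ^ l) ∧ ∀ s, s ∉ S' → u s = 1}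
  mul_mem' := by
    rintro u v ⟨h1, h2⟩ ⟨h3, h4⟩
    refine ⟨fun s => ?_, fun s hs => ?_⟩
    · rw [Pi.mul_apply, Pi.mul_apply, h1, h3, mul_pow]
    · rw [Pi.mul_apply, h2 s hs, h4 s hs, one_mul]
  one_mem' := ⟨fun s => by simp, fun s _ => rfl⟩
  inv_mem' := by
    rintro u ⟨h1, h2⟩
    refine ⟨fun s => ?_, fun s hs => ?_⟩
    · rw [Pi.inv_apply, Pi.inv_apply, h1, inv_pow]
    · rw [Pi.inv_apply, h2 s hs, inv_one]

omit [Fintype k] [AddCommGroup V] in
theorem card_UU {l : ℕ} [Finite k] {F : V → V} (hF : Function.Injective F) (hl : 2 ≤ l) {S' : Finset V}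
    (hS : ∀ s, s ∈ S' ↔ F s ∈ S') : Nat.card (UU k l F S') ≤ l ^ S'.card := by
  have h1 := cnt (k := k) l hF hl S'.card S' rfl hS (fun _ => 1)
  refine le_trans ?_ h1
  rw [← Nat.card_coe_set_eq]
  refine Nat.card_le_card_of_injective (fun u : UU k l F S' => (⟨fun s => ((u.1 s : kˣ) : k), ?_, ?_⟩ : Eq0 l F S' (fun _ => (1 : k)))) ?_
  · intro s
    show ((u.1 (F s) : kˣ) : k) = ((u.1 s : kˣ) : k) ^ l
    rw [u.2.1 s]
    push_cast
    rfl
  · intro s hs
    show ((u.1 s : kˣ) : k) = 1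
    rw [u.2.2 s hs]
    rfl
  · intro u v huv
    ext s
    have h2 := congrFun (congrArg Subtype.val huv) s
    exact h2

/-- The character attached to a function with values in `F_2`. -/
def Xi (k : Type) [Field k] (l : ℕ) (h : V → ZMod 2) : (V → kˣ) →* kˣ where
  toFun u := (∏ s ∈ univ.filter (fun s => h s ≠ 0), u s) ^ ((l - 1) / 2)
  map_one' := by simp
  map_mul' u v := by
    simp only [Pi.mul_apply]
    rw [prod_mul_distrib, mul_pow]

/-- The product over an invariant set lies in `F_l`. -/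
theorem prod_inv {l : ℕ} {F : V → V} (hF : Function.Bijective F) {u : V → kˣ} (hu : ∀ s, u (F s) = u s ^ l)
    (p : V → Prop) [DecidablePred p] (hp : ∀ s, p (F s) ↔ p s) :
    (∏ s ∈ univ.filter p, u s) ^ l = ∏ s ∈ univ.filter p, u s := by
  rw [← prod_pow]
  refine prod_bij (fun s _ => F s) ?_ ?_ ?_ ?_
  · intro s hs
    rw [mem_filter] at hs ⊢
    exact ⟨mem_univ _, (hp s).2 hs.2⟩
  · intro a _ b _ h
    exact hF.1 h
  · intro b hb
    obtain ⟨a, rfl⟩ := hF.2 b
    rw [mem_filter] at hb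
    exact ⟨a, mem_filter.2 ⟨mem_univ _, (hp a).1 hb.2⟩, rfl⟩
  · intro s _
    exact (hu s).symm

theorem pow_pred_eq_one {l : ℕ} (hl : 1 ≤ l) {x : kˣ} (h : x ^ l = x) : x ^ (l - 1) = 1 := by
  have h1 : x ^ (l - 1) * x = 1 * x := by
    rw [← pow_succ, Nat.sub_add_cancel hl, h, one_mul]
  exact mul_right_cancel h1

theorem zmod2_cases (a : ZMod 2) : a = 0 ∨ a = 1 := by
  revert a
  decide

/-- The characters are multiplicative in `h`. -/
theorem Xi_add {l : ℕ} (hl : 1 ≤ l) (hodd : l % 2 = 1) {F : V → V} (hF : Function.Bijective F) {u : V → kˣ}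
    (hu : ∀ s, u (F s) = u s ^ l) {h h' : V → ZMod 2} (hh : ∀ s, h (F s) = h s) (hh' : ∀ s, h' (F s) = h' s) :
    Xi k l (h + h') u = Xi k l h u * Xi k l h' u := by
  show (∏ s ∈ univ.filter (fun s => (h + h') s ≠ 0), u s) ^ ((l - 1) / 2) =
    (∏ s ∈ univ.filter (fun s => h s ≠ 0), u s) ^ ((l - 1) / 2) *
      (∏ s ∈ univ.filter (fun s => h' s ≠ 0), u s) ^ ((l - 1) / 2)
  have h1 : (∏ s ∈ univ.filter (fun s => h s ≠ 0), u s) * (∏ s ∈ univ.filter (fun s => h' s ≠ 0), u s) =
      (∏ s ∈ univ.filter (fun s => (h + h') s ≠ 0), u s) * (∏ s ∈ univ.filter (fun s => h s ≠ 0 ∧ h' s ≠ 0), u s) ^ 2 := by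
    simp only [prod_filter]
    rw [← prod_pow, ← prod_mul_distrib, ← prod_mul_distrib]
    apply prod_congr rfl
    intro s _
    rw [Pi.add_apply]
    rcases zmod2_cases (h s) with h2 | h2 <;> rcases zmod2_cases (h' s) with h3 | h3 <;> rw [h2, h3]
    · simp
    · simp
    · simp
    · have h4 : (1 : ZMod 2) + 1 = 0 := by decide
      rw [h4]
      simp [pow_two]
  have h2 := prod_inv hF hu (fun s => h s ≠ 0 ∧ h' s ≠ 0) (fun s => by rw [hh, hh'])
  have h3 := pow_pred_eq_one hl h2
  rw [← mul_pow, h1, mul_pow, ← pow_mul]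
  have h4 : 2 * ((l - 1) / 2) = l - 1 := by omega
  rw [h4, h3, mul_one]

/-- The nontriviality of the characters. -/
theorem Xi_ne {l f : ℕ} (hl : 2 ≤ l) (hodd : l % 2 = 1) (hk : Fintype.card k = l ^ f) {F : V → V}
    (hF : Function.Bijective F) (hFf : ∀ s, F^[f] s = s) {S' : Finset V} (hS : ∀ s, s ∈ S' ↔ F s ∈ S')
    {h : V → ZMod 2} (hh : ∀ s, h (F s) = h s) {s : V} (hs : s ∈ S') (hs0 : h s ≠ 0) :
    ∃ u ∈ UU k l F S', Xi k l h u ≠ 1 := by
  classical
  have hf : 0 < f := by
    rcases Nat.eq_zero_or_pos f with h0 | h0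
    · rw [h0, pow_zero] at hk
      have := Fintype.one_lt_card (α := k)
      omega
    · exact h0
  obtain ⟨b, hb⟩ := IsCyclic.exists_generator (α := kˣ)
  have hord : orderOf b = l ^ f - 1 := by
    rw [orderOf_eq_card_of_forall_mem_zpowers hb, Nat.card_eq_fintype_card, Fintype.card_units, hk]
  have hlf : 2 < l ^ f := by
    have h3 : 3 ≤ l := by omega
    calc 2 < l := h3
      _ = l ^ 1 := (pow_one l).symm
      _ ≤ l ^ f := Nat.pow_le_pow_right (by omega) hf
  have hbf : b ^ l ^ f = b := by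
    have h1 : b ^ (l ^ f - 1) = 1 := by rw [← hord, pow_orderOf_eq_one]
    calc b ^ l ^ f = b ^ (l ^ f - 1 + 1) := by rw [Nat.sub_add_cancel (by omega)]
      _ = b := by rw [pow_succ, h1, one_mul]
  have hit : ∀ i, F^[i] s ∈ S' ∧ h (F^[i] s) ≠ 0 := by
    intro i
    induction i with
    | zero => exact ⟨hs, hs0⟩
    | succ i ih =>
      rw [Function.iterate_succ_apply']
      exact ⟨(hS _).1 ih.1, by rw [hh]; exact ih.2⟩
  set u : V → kˣ := fun x => ∏ i ∈ range f, if F^[i] s = x then b ^ l ^ i else 1 with hu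
  refine ⟨u, ⟨?_, ?_⟩, ?_⟩
  · intro x
    simp only [hu]
    rw [← prod_pow]
    obtain ⟨f', rfl⟩ : ∃ f', f = f' + 1 := ⟨f - 1, by omega⟩
    rw [prod_range_succ', prod_range_succ]
    have h1 : ∀ i ∈ range f', (if F^[i + 1] s = F x then b ^ l ^ (i + 1) else 1) = (if F^[i] s = x then b ^ l ^ i else 1) ^ l := by
      intro i _
      rw [Function.iterate_succ_apply']
      by_cases h2 : F^[i] s = x
      · rw [if_pos h2, if_pos (congrArg F h2), ← pow_mul, pow_succ]
      · rw [if_neg h2, if_neg (fun h3 => h2 (hF.1 h3)), one_pow]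
    rw [prod_congr rfl h1]
    congr 1
    have h3 : F^[0] s = F x ↔ F^[f'] s = x := by
      constructor
      · intro h4
        apply hF.1
        rw [← Function.iterate_succ_apply' F, ← h4]
        exact hFf s
      · intro h4
        rw [← h4, ← Function.iterate_succ_apply' F]
        exact (hFf s).symm
    by_cases h4 : F^[f'] s = x
    · rw [if_pos h4, if_pos (h3.2 h4), ← pow_mul, ← pow_succ, hbf, pow_zero, pow_one]
    · rw [if_neg h4, if_neg (fun h5 => h4 (h3.1 h5)), one_pow]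
  · intro x hx
    simp only [hu]
    apply prod_eq_one
    intro i _
    rw [if_neg]
    rintro rfl
    exact hx (hit i).1
  · show (∏ x ∈ univ.filter (fun x => h x ≠ 0), u x) ^ ((l - 1) / 2) ≠ 1
    have h1 : ∏ x ∈ univ.filter (fun x => h x ≠ 0), u x = b ^ ∑ i ∈ range f, l ^ i := by
      simp only [hu]
      rw [prod_comm, ← prod_pow_eq_pow_sum]
      apply prod_congr rfl
      intro i _
      rw [prod_ite_eq]
      have h9 : F^[i] s ∈ univ.filter (fun x => h x ≠ 0) := mem_filter.2 ⟨mem_univ _, (hit i).2⟩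
      exact if_pos h9
    rw [h1, ← pow_mul]
    have h2 : (∑ i ∈ range f, l ^ i) * ((l - 1) / 2) = (l ^ f - 1) / 2 := by
      have h3 : (l - 1) * ∑ i ∈ range f, l ^ i = l ^ f - 1 := by
        have h4 := Nat.geomSum_eq hl f
        rw [h4]
        exact Nat.mul_div_cancel' (Nat.sub_one_dvd_pow_sub_one l f)
      have h5 : l - 1 = 2 * ((l - 1) / 2) := by omega
      rw [h5, mul_assoc] at h3
      rw [← h3, Nat.mul_div_cancel_left _ (by norm_num : 0 < 2), mul_comm]
    rw [h2]
    intro h3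
    have h4 := orderOf_dvd_of_pow_eq_one h3
    rw [hord] at h4
    have h5 := Nat.le_of_dvd (by omega) h4
    omega

/-- Duality: there are at most as many characters as there are classes. -/
theorem card_chars {U : Type} [CommGroup U] [Finite U] (k : Type) [Field k] {Φ : Type} [Finite Φ] (χ : Φ → (U →* kˣ))
    (hχ : Function.Injective χ) (H : Subgroup U) (hH : ∀ u ∈ H, ∀ φ, χ φ u = 1) :
    Nat.card H * Nat.card Φ ≤ Nat.card U := by
  classical
  let Q := U ⧸ H
  let ψ : Φ → (Q →* k) := fun φ => (Units.coeHom k).comp (QuotientGroup.lift H (χ φ) (fun u hu => hH u hu φ))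
  have hψ : Function.Injective ψ := by
    intro φ φ' h
    apply hχ
    ext u
    have h1 := congrArg (fun f : Q →* k => f (QuotientGroup.mk u)) h
    exact h1
  have hli : LinearIndependent k (fun φ => (ψ φ : Q → k)) := (linearIndependent_monoidHom Q k).comp ψ hψ
  have := Fintype.ofFinite Φ
  have := Fintype.ofFinite Q
  have h1 := hli.fintype_card_le_finrank
  rw [Module.finrank_fintype_fun_eq_card] at h1
  rw [Nat.card_eq_fintype_card (α := Φ)]
  calc Nat.card H * Fintype.card Φ ≤ Nat.card H * Fintype.card Q := Nat.mul_le_mul_left _ h1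
    _ = Nat.card U := by
      rw [← Nat.card_eq_fintype_card (α := Q), mul_comm]
      exact (Subgroup.card_eq_card_quotient_mul_card_subgroup H).symm

end

open Classical in
theorem lct : S_LCT := by
  intro k V _ _ _ _ _ l f hl hl2 hk hV F hF hFf S hS z t ht hFt ξ
  have hl1 : 2 ≤ l := hl.two_le
  have hodd : l % 2 = 1 := by
    rcases hl.eq_two_or_odd with h | h
    · exact absurd h hl2
    · exact h
  set Cs := {c : V → k | EqF l F c ∧ (∀ s, s ∉ S → c s = z s) ∧ c t = 0 ∧ (∀ s, s ≠ t → c s ≠ 0) ∧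
      ∀ φ : V →+ ZMod 2, (∀ s, φ (F s) = φ s) →
        (∏ s ∈ univ.filter (fun s => φ (s - t) ≠ 0), c s) ^ ((l - 1) / 2) = ξ φ} with hCs
  set S' := S.erase t with hS'
  have hcardS : S'.card = S.card - 1 := card_erase_of_mem ht
  have hFt' : ∀ s, F s = t ↔ s = t := by
    intro s
    constructor
    · intro h
      exact hF.1 (h.trans hFt.symm)
    · rintro rfl
      exact hFt
  have hSS : ∀ s, s ∈ S' ↔ F s ∈ S' := by
    intro s
    rw [hS', mem_erase, mem_erase, ← hS, Ne, Ne, hFt']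
  -- the functions
  let Φ : Set (V → ZMod 2) := {h | ∃ φ : V →+ ZMod 2, (∀ s, φ (F s) = φ s) ∧
    ∀ s, h s = if s ∈ (S : Set V) then φ (s - t) else 0}
  have hNS : NS F (S : Set V) t = Φ.ncard := by
    unfold NS
    congr 1
    ext h
    constructor
    · rintro ⟨φ, h1, h2⟩
      exact ⟨φ, h1, fun s => by convert h2 s⟩
    · rintro ⟨φ, h1, h2⟩
      exact ⟨φ, h1, fun s => by convert h2 s⟩
  have hΦinv : ∀ h ∈ Φ, ∀ s, h (F s) = h s := by
    rintro h ⟨φ, h1, h2⟩ s
    rw [h2, h2]
    have h3 : (F s ∈ (S : Set V)) ↔ s ∈ (S : Set V) := (hS s).symm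
    by_cases h4 : s ∈ (S : Set V)
    · rw [if_pos h4, if_pos (h3.2 h4)]
      have h5 : F s - t = F (s - t) := by rw [map_sub, hFt]
      rw [h5, h1]
    · rw [if_neg h4, if_neg (fun h5 => h4 (h3.1 h5))]
  have hΦadd : ∀ h ∈ Φ, ∀ h' ∈ Φ, h + h' ∈ Φ := by
    rintro h ⟨φ, h1, h2⟩ h' ⟨φ', h3, h4⟩
    refine ⟨φ + φ', fun s => by simp [h1, h3], fun s => ?_⟩
    rw [Pi.add_apply, h2, h4]
    by_cases h5 : s ∈ (S : Set V)
    · rw [if_pos h5, if_pos h5, if_pos h5]
      rfl
    · rw [if_neg h5, if_neg h5, if_neg h5, add_zero]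
  have hfinΦ : Finite Φ := Subtype.finite
  -- the characters
  let U := UU k l F S'
  let χ : Φ → (U →* kˣ) := fun h => (Xi k l h.1).comp U.subtype
  have hχ : Function.Injective χ := by
    rintro ⟨h, hh⟩ ⟨h', hh'⟩ heq
    by_contra hne
    have hne' : h ≠ h' := fun h1 => hne (Subtype.ext h1)
    obtain ⟨s, hs⟩ := Function.ne_iff.1 hne'
    have hsum := hΦadd h hh h' hh'
    have hs0 : (h + h') s ≠ 0 := by
      rw [Pi.add_apply]
      intro h1
      apply hs
      revert h1
      generalize h s = a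
      generalize h' s = b
      revert a b
      decide
    have hsS : s ∈ S' := by
      obtain ⟨φ, h1, h2⟩ := hsum
      rw [h2] at hs0
      rw [hS', mem_erase]
      by_cases h3 : s ∈ (S : Set V)
      · refine ⟨?_, h3⟩
        rintro rfl
        rw [if_pos h3, sub_self, map_zero] at hs0
        exact hs0 rfl
      · rw [if_neg h3] at hs0
        exact absurd rfl hs0
    obtain ⟨u, hu, hu1⟩ := Xi_ne hl1 hodd hk hF hFf hSS (hΦinv _ hsum) hsS hs0
    apply hu1
    rw [Xi_add (by omega) hodd hF hu.1 (hΦinv h hh) (hΦinv h' hh')]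
    have h1 : Xi k l h u = Xi k l h' u := congrArg (fun f : U →* kˣ => f ⟨u, hu⟩) heq
    rw [← h1]
    have h2 := prod_inv hF hu.1 (fun s => h s ≠ 0) (fun s => by rw [hΦinv h hh])
    have h3 := pow_pred_eq_one (by omega) h2
    show (∏ s ∈ univ.filter (fun s => h s ≠ 0), u s) ^ ((l - 1) / 2) * (∏ s ∈ univ.filter (fun s => h s ≠ 0), u s) ^ ((l - 1) / 2) = 1
    rw [← pow_add]
    have h4 : (l - 1) / 2 + (l - 1) / 2 = l - 1 := by omega
    rw [h4, h3]
  let H : Subgroup U := ⨅ h : Φ, (χ h).ker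
  have hH : ∀ u ∈ H, ∀ h, χ h u = 1 := by
    intro u hu h
    exact MonoidHom.mem_ker.1 (Subgroup.mem_iInf.1 hu h)
  have hdual := card_chars k χ hχ H hH
  have hU : Nat.card U ≤ l ^ (S.card - 1) := by
    rw [← hcardS]
    exact card_UU hF.1 hl1 hSS
  have hCsH : Cs.ncard ≤ Nat.card H := by
    rcases Cs.eq_empty_or_nonempty with h0 | ⟨c0, hc0⟩
    · rw [h0, Set.ncard_empty]
      exact Nat.zero_le _
    obtain ⟨e1, e2, e3, e4, e5⟩ := hc0
    rw [← Nat.card_coe_set_eq]
    have hFne : ∀ s, s ≠ t → F s ≠ t := fun s h1 h2 => h1 ((hFt' s).1 h2)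
    -- the quotient
    let q : Cs → V → kˣ := fun c s => if h : s = t then 1 else
      Units.mk0 (c.1 s) (c.2.2.2.2.1 s h) / Units.mk0 (c0 s) (e4 s h)
    have hq : ∀ c : Cs, ∀ s, s ≠ t → ((q c s : kˣ) : k) = c.1 s / c0 s := by
      intro c s hs
      simp only [q, dif_neg hs]
      push_cast
      simp
    have hqt : ∀ c : Cs, q c t = 1 := by
      intro c
      simp only [q, dif_pos]
    have hqU : ∀ c : Cs, q c ∈ U := by
      intro c
      refine ⟨fun s => ?_, fun s hs => ?_⟩
      · by_cases h : s = t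
        · subst h
          rw [hFt, hqt, one_pow]
        · apply Units.ext
          rw [hq c _ (hFne s h), Units.val_pow_eq_pow_val, hq c s h, div_pow, c.2.1 s, e1 s]
      · by_cases h : s = t
        · subst h
          exact hqt c
        · have h1 : s ∉ S := fun h2 => hs (mem_erase.2 ⟨h, h2⟩)
          apply Units.ext
          rw [hq c s h, c.2.2.1 s h1, e2 s h1, Units.val_one, div_self]
          rw [← e2 s h1]
          exact e4 s h
    have hqH : ∀ c : Cs, (⟨q c, hqU c⟩ : U) ∈ H := by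
      intro c
      rw [Subgroup.mem_iInf]
      rintro ⟨h, hh⟩
      rw [MonoidHom.mem_ker]
      show (∏ s ∈ univ.filter (fun s => h s ≠ 0), q c s) ^ ((l - 1) / 2) = 1
      obtain ⟨φ, h1, h2⟩ := hh
      have h3 : ∏ s ∈ univ.filter (fun s => h s ≠ 0), q c s = ∏ s ∈ univ.filter (fun s => φ (s - t) ≠ 0), q c s := by
        rw [prod_filter, prod_filter]
        apply prod_congr rfl
        intro s _
        rw [h2]
        by_cases h4 : s ∈ (S : Set V)
        · rw [if_pos h4]
        · rw [if_neg h4]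
          have h5 : q c s = 1 := by
            refine (hqU c).2 s (fun h6 => h4 ?_)
            exact (mem_erase.1 h6).2
          rw [h5]
          simp
      have hne : ∀ s ∈ univ.filter (fun s => φ (s - t) ≠ 0), s ≠ t := by
        intro s hs h4
        rw [mem_filter, h4, sub_self, map_zero] at hs
        exact hs.2 rfl
      rw [h3]
      apply Units.ext
      rw [Units.val_pow_eq_pow_val, Units.coe_prod, Units.val_one]
      rw [prod_congr rfl (fun s hs => hq c s (hne s hs)), prod_div_distrib, div_pow]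
      have h4 := c.2.2.2.2.2 φ h1
      have h5 := e5 φ h1
      rw [h4, h5, div_self]
      rw [← h5]
      apply pow_ne_zero
      rw [prod_ne_zero_iff]
      exact fun s hs => e4 s (hne s hs)
    refine Nat.card_le_card_of_injective (fun c : Cs => (⟨⟨q c, hqU c⟩, hqH c⟩ : H)) ?_
    intro c c' hcc
    have h1 : q c = q c' := congrArg (fun x : H => (x.1.1 : V → kˣ)) hcc
    apply Subtype.ext
    ext s
    by_cases h : s = t
    · subst h
      rw [c.2.2.2.1, c'.2.2.2.1]
    · have h2 := congrArg (fun x : kˣ => (x : k)) (congrFun h1 s)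
      rw [hq c s h, hq c' s h] at h2
      exact (div_left_inj' (e4 s h)).1 h2
  have hfinal : Cs.ncard * NS F (S : Set V) t ≤ l ^ (S.card - 1) := by
    rw [hNS, ← Nat.card_coe_set_eq Φ]
    exact le_trans (Nat.mul_le_mul_right _ hCsH) (le_trans hdual hU)
  have h9 : ((Cs.ncard * NS F (S : Set V) t : ℕ) : ℝ) ≤ ((l ^ (S.card - 1) : ℕ) : ℝ) := by exact_mod_cast hfinal
  push_cast at h9
  exact h9

end Pool.Agent.Q299.ESM
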