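import Pool.Agent.Q161.ESM.Stm2
import Pool.Agent.Q299.ESM.Cnt
import Pool.Agent.Q299.ESM.Gal

/-!
# Project ESM, job RES: the classes modulo `l`
-/

set_option autoImplicit false

namespace Pool.Agent.Q299.ESM

open NumberField IsDedekindDomain Finset Pool.Agent.Q161.ESM
open Pool.Agent.Q51.EL (Abv)

section

variable {K : Type} [Field K] [NumberField K] {V : Type} [AddCommGroup V] [DistribMulAction (K ≃ₐ[ℚ] K) V]
  {ι : Type} {Lf : ι → Type} [∀ i, Field (Lf i)] [∀ i, NumberField (Lf i)] {em : (i : ι) → Lf i →+* K} {rp : ι → V}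

/-- The element with given coordinates. -/
noncomputable def el {n : ι → ℕ} (bs : (i : ι) → Module.Basis (Fin (n i)) ℤ (𝓞 (Lf i))) (x : Vc n) : (i : ι) → 𝓞 (Lf i) :=
  fun i => ∑ j, x i j • bs i j

theorem ev_smul {ev : ((i : ι) → 𝓞 (Lf i)) →+* (V → 𝓞 K)} (hev : IsEv em rp ev) (x : (i : ι) → 𝓞 (Lf i)) (i : ι)
    (g : K ≃ₐ[ℚ] K) : ev x (g • rp i) = g • RingOfIntegers.mapRingHom (em i) (x i) := by
  have h1 := hev.eqv x g (rp i)
  apply FaithfulSMul.algebraMap_injective (𝓞 K) K
  show ((ev x (g • rp i) : 𝓞 K) : K) = g (em i (x i : Lf i))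
  rw [h1, hev.val]

/-- The sum of the degrees. -/
theorem sum_deg [Finite V] [Fintype ι] (hrp : Rp Lf em rp)
    (hdeg : ∀ i, Module.finrank ℚ (Lf i) = {t : V | ∃ g : K ≃ₐ[ℚ] K, g • rp i = t}.ncard) {n : ι → ℕ}
    (bs : (i : ι) → Module.Basis (Fin (n i)) ℤ (𝓞 (Lf i))) : ∑ i, n i = Nat.card V := by
  have h1 : ∀ i, n i = Nat.card {t : V // ∃ g : K ≃ₐ[ℚ] K, g • rp i = t} := by
    intro i
    have h2 : n i = Module.finrank ℤ (𝓞 (Lf i)) := by
      rw [Module.finrank_eq_card_basis (bs i), Fintype.card_fin]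
    rw [h2, RingOfIntegers.rank, hdeg i]
    exact (Nat.card_coe_set_eq _).symm
  rw [sum_congr rfl (fun i _ => h1 i), ← Nat.card_sigma]
  refine Nat.card_congr (Equiv.ofBijective (fun p => p.2.1) ⟨?_, ?_⟩)
  · rintro ⟨i, t, ht⟩ ⟨i', t', ht'⟩ h
    simp only at h
    subst h
    have h3 := (hrp.orb t).unique ht ht'
    subst h3
    rfl
  · intro t
    obtain ⟨i, hi, -⟩ := hrp.orb t
    exact ⟨⟨i, t, hi⟩, rfl⟩

end

theorem res : S_EVX → S_RES := by
  intro hEVX K _ _ _ V _ _ _ ι _ Lf _ _ em rp hrp ev hev n bs l hl hsq w hw F hF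
  classical
  have hdeg := (hEVX K V ι Lf em rp hrp).2
  have hwp : w.asIdeal.IsPrime := w.isPrime
  have hfin : Finite (𝓞 K ⧸ w.asIdeal) := Ideal.finiteQuotientOfFreeOfNeBot w.asIdeal w.ne_bot
  have hl0 : l ≠ 0 := hl.ne_zero
  have hNZ : NeZero l := ⟨hl0⟩
  let lift : Vm n l → Vc n := fun y i j => ((y i j).val : ℤ)
  have hlift : ∀ y : Vm n l, rd n l (lift y) = y := by
    intro y
    ext i j
    simp [rd, lift]
  let R0 : Vc n → (V → 𝓞 K ⧸ w.asIdeal) := fun x s => Ideal.Quotient.mk w.asIdeal (ev (el bs x) s)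
  -- the key
  have hkey : ∀ (x x' : Vc n) (i : ι), (∀ j, (l : ℤ) ∣ x i j - x' i j) ↔
      ∀ g : K ≃ₐ[ℚ] K, R0 x (g • rp i) = R0 x' (g • rp i) := by
    intro x x' i
    have h1 : el bs x i - el bs x' i = ∑ j, (x i j - x' i j) • bs i j := by
      simp only [el]
      rw [← sum_sub_distrib]
      apply sum_congr rfl
      intro j _
      rw [sub_smul]
    have h2 : ∀ g : K ≃ₐ[ℚ] K, R0 x (g • rp i) = R0 x' (g • rp i) ↔
        g • RingOfIntegers.mapRingHom (em i) (el bs x i - el bs x' i) ∈ w.asIdeal := by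
      intro g
      simp only [R0]
      rw [Ideal.Quotient.eq, ev_smul hev, ev_smul hev, ← smul_sub, map_sub]
    rw [← dvd_coord (bs i) l (fun j => x i j - x' i j), ← h1]
    constructor
    · rintro ⟨t, ht⟩ g
      rw [h2 g, ht, map_mul, smul_mul', map_natCast]
      have h3 : g • ((l : ℕ) : 𝓞 K) = (l : 𝓞 K) := map_natCast (MulSemiringAction.toRingHom (K ≃ₐ[ℚ] K) (𝓞 K) g) l
      rw [h3]
      exact w.asIdeal.mul_mem_right _ hw
    · intro h
      apply dvd_of_map (em i) hl0
      exact dvd_of_all hl hsq hw (fun g => (h2 g).1 (h g))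
  have hcong : ∀ x x' : Vc n, rd n l x = rd n l x' → R0 x = R0 x' := by
    intro x x' h
    ext s
    obtain ⟨i, ⟨g, hg⟩, -⟩ := hrp.orb s
    rw [← hg]
    apply (hkey x x' i).1
    intro j
    have h1 := congrFun (congrFun h i) j
    simp only [rd] at h1
    rw [← sub_eq_zero, ← Int.cast_sub, ZMod.intCast_zmod_eq_zero_iff_dvd] at h1
    exact h1
  have hdvd : ∀ (y y' : Vm n l) (i : ι), y i = y' i ↔ ∀ j, (l : ℤ) ∣ lift y i j - lift y' i j := by
    intro y y' i
    have h1 : ∀ j, (l : ℤ) ∣ lift y i j - lift y' i j ↔ y i j = y' i j := by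
      intro j
      rw [← ZMod.intCast_zmod_eq_zero_iff_dvd, Int.cast_sub, sub_eq_zero]
      have h2 := congrFun (congrFun (hlift y) i) j
      have h3 := congrFun (congrFun (hlift y') i) j
      simp only [rd] at h2 h3
      rw [h2, h3]
    constructor
    · intro h j
      rw [h1, h]
    · intro h
      ext j
      exact (h1 j).1 (h j)
  have hcomp : ∀ (y y' : Vm n l) (i : ι), y i = y' i ↔
        ∀ g : K ≃ₐ[ℚ] K, R0 (lift y) (g • rp i) = R0 (lift y') (g • rp i) := by
    intro y y' i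
    rw [hdvd, hkey]
  have hinj : Function.Injective (fun y : Vm n l => R0 (lift y)) := by
    intro y y' h
    funext i
    rw [hcomp]
    intro g
    exact congrFun h _
  have hFc : ∀ (x : Vc n) (s : V), R0 x (F • s) = R0 x s ^ l := by
    intro x s
    simp only [R0]
    rw [← map_pow, Ideal.Quotient.eq]
    exact hF _ _ (hev.eqv _ F s)
  refine ⟨fun y => R0 (lift y), hinj, ?_, ?_, hcomp⟩
  · intro c
    constructor
    · rintro ⟨y, rfl⟩ s
      exact hFc _ s
    · intro hc
      -- counting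
      have hFinj : Function.Injective (fun s : V => F • s) := MulAction.injective F
      have hVfin := Fintype.ofFinite V
      have hcnt := cnt (k := 𝓞 K ⧸ w.asIdeal) l (F := fun s : V => F • s) hFinj hl.two_le _ univ rfl
        (fun s => by simp) (fun _ => 0)
      set E := Eq0 l (fun s : V => F • s) univ (fun _ => (0 : 𝓞 K ⧸ w.asIdeal)) with hE
      have hcard : Nat.card (Vm n l) = l ^ (univ : Finset V).card := by
        rw [Nat.card_eq_fintype_card, Fintype.card_pi]
        have h1 : ∀ i, Fintype.card (Fin (n i) → ZMod l) = l ^ n i := by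
          intro i
          rw [Fintype.card_fun, ZMod.card, Fintype.card_fin]
        rw [prod_congr rfl (fun i _ => h1 i), prod_pow_eq_pow_sum, sum_deg hrp hdeg bs,
          Nat.card_eq_fintype_card, card_univ]
      have hmem : ∀ y : Vm n l, R0 (lift y) ∈ E := fun y => ⟨fun s => hFc _ s, fun s hs => absurd (mem_univ s) hs⟩
      have hEfin : E.Finite := Set.toFinite _
      have hbij : Set.range (fun y : Vm n l => R0 (lift y)) = E := by
        apply Set.eq_of_subset_of_ncard_le
        · rintro _ ⟨y, rfl⟩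
          exact hmem y
        · refine le_trans hcnt ?_
          rw [← hcard, ← Set.image_univ, Set.ncard_image_of_injective _ hinj, Set.ncard_univ]
        · exact hEfin
      have h1 : c ∈ E := ⟨hc, fun s hs => absurd (mem_univ s) hs⟩
      rw [← hbij] at h1
      exact h1
  · intro x
    have h1 : R0 (lift (rd n l x)) = R0 x := hcong _ _ (hlift _)
    exact h1

end Pool.Agent.Q299.ESM
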