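import Pool.Agent.Q161.ESM.Stm2
import Pool.Agent.Q299.ESM.Res

/-!
# Project ESM, job N1F: the primes of degree one and the fixed points of the Frobenius element
-/

set_option autoImplicit false

namespace Pool.Agent.Q299.ESM

open NumberField IsDedekindDomain Finset Pool.Agent.Q161.ESM
open Pool.Agent.Q51.EL (Abv N1)

/-- The functions with a value in `F_l` at a point which is not fixed. -/
theorem cnt2 {k V : Type} [CommRing k] [IsDomain k] [Finite k] [Fintype V] {l : ℕ} {F : V → V}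
    (hF : Function.Injective F) (hl : 2 ≤ l) {s : V} (hs : F s ≠ s) (z : V → k) :
    {c | c ∈ Eq0 l F univ z ∧ c s ^ l = c s}.ncard < l ^ (univ : Finset V).card := by
  classical
  set m := Function.minimalPeriod F s with hm
  have hmpos : 0 < m := per_pos hF s
  have hm2 : 2 ≤ m := by
    rcases Nat.lt_or_ge m 2 with h | h
    · exfalso
      have h1 : m = 1 := by omega
      apply hs
      have h2 := Function.iterate_minimalPeriod (f := F) (x := s)
      rw [← hm, h1] at h2
      exact h2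
    · exact h
  have hsub : orb F s ⊆ univ := subset_univ _
  have hcard : ((univ : Finset V) \ orb F s).card = (univ : Finset V).card - m := by
    rw [card_sdiff_of_subset hsub, card_orb]
  have hmn : m ≤ (univ : Finset V).card := by
    rw [hm, ← card_orb]
    exact card_le_card hsub
  set N := (univ : Finset V).card with hN
  have hfib : ∀ a : k, {c | c ∈ Eq0 l F univ z ∧ c s = a}.ncard ≤ l ^ (N - m) := by
    intro a
    by_cases h : ∃ c0 ∈ Eq0 l F univ z, c0 s = a
    · obtain ⟨c0, h1, rfl⟩ := h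
      refine le_trans (Set.ncard_le_ncard (fiber_sub l h1) (Set.toFinite _)) ?_
      refine cnt l hF hl (N - m) _ hcard ?_ c0
      intro x
      rw [mem_sdiff, mem_sdiff, ← orb_stable hF]
      simp
    · have h1 : {c | c ∈ Eq0 l F univ z ∧ c s = a} = ∅ := by
        ext c
        simp only [Set.mem_setOf_eq, Set.mem_empty_iff_false, iff_false]
        exact fun h2 => h ⟨c, h2⟩
      rw [h1, Set.ncard_empty]
      exact Nat.zero_le _
  have hroots : {x : k | x ^ l = x}.ncard ≤ l := card_roots_le l hl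
  have hfin := Set.toFinite {x : k | x ^ l = x}
  have hunion : {c | c ∈ Eq0 l F univ z ∧ c s ^ l = c s} ⊆ ⋃ a ∈ hfin.toFinset, {c | c ∈ Eq0 l F univ z ∧ c s = a} := by
    rintro c ⟨hc, hcs⟩
    rw [Set.mem_iUnion₂]
    refine ⟨c s, ?_, hc, rfl⟩
    rw [Set.Finite.mem_toFinset]
    exact hcs
  calc {c | c ∈ Eq0 l F univ z ∧ c s ^ l = c s}.ncard ≤ (⋃ a ∈ hfin.toFinset, {c | c ∈ Eq0 l F univ z ∧ c s = a}).ncard :=
        Set.ncard_le_ncard hunion (Set.toFinite _)
    _ ≤ ∑ a ∈ hfin.toFinset, {c | c ∈ Eq0 l F univ z ∧ c s = a}.ncard := Finset.set_ncard_biUnion_le _ _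
    _ ≤ ∑ a ∈ hfin.toFinset, l ^ (N - m) := sum_le_sum fun a _ => hfib a
    _ = hfin.toFinset.card * l ^ (N - m) := by rw [sum_const, smul_eq_mul]
    _ ≤ l * l ^ (N - m) := by
      apply Nat.mul_le_mul_right
      rw [← Set.ncard_eq_toFinset_card _ hfin]
      exact hroots
    _ = l ^ (N - m + 1) := by rw [pow_succ, mul_comm]
    _ < l ^ N := Nat.pow_lt_pow_right (by omega) (by omega)

section

variable {K : Type} [Field K] [NumberField K] {L : Type} [Field L] [NumberField L]

/-- The homomorphism `x ↦ g (em x)` modulo `w`. -/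
noncomputable def ph (em : L →+* K) (w : Ideal (𝓞 K)) (g : K ≃ₐ[ℚ] K) : 𝓞 L →+* 𝓞 K ⧸ w :=
  (Ideal.Quotient.mk w).comp ((MulSemiringAction.toRingHom (K ≃ₐ[ℚ] K) (𝓞 K) g).comp (RingOfIntegers.mapRingHom em))

theorem ph_apply (em : L →+* K) (w : Ideal (𝓞 K)) (g : K ≃ₐ[ℚ] K) (x : 𝓞 L) :
    ph em w g x = Ideal.Quotient.mk w (g • RingOfIntegers.mapRingHom em x) := rfl

/-- The prime below. -/
noncomputable def pb (em : L →+* K) (w : Ideal (𝓞 K)) [w.IsPrime] {l : ℕ} (hl : l.Prime) (hw : (l : 𝓞 K) ∈ w)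
    (g : K ≃ₐ[ℚ] K) : HeightOneSpectrum (𝓞 L) where
  asIdeal := RingHom.ker (ph em w g)
  isPrime := RingHom.ker_isPrime _
  ne_bot := by
    intro h
    have h1 : (l : 𝓞 L) ∈ RingHom.ker (ph em w g) := by
      rw [RingHom.mem_ker, map_natCast]
      have h2 : ((l : ℕ) : 𝓞 K ⧸ w) = Ideal.Quotient.mk w (l : 𝓞 K) := (map_natCast _ l).symm
      rw [h2, Ideal.Quotient.eq_zero_iff_mem]
      exact hw
    rw [h, Ideal.mem_bot] at h1
    exact hl.ne_zero (Nat.cast_eq_zero.1 h1)

/-- The norm of the prime below is `l` if the image is the prime field. -/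
theorem absNorm_pb (em : L →+* K) (w : Ideal (𝓞 K)) [w.IsPrime] [Finite (𝓞 K ⧸ w)] {l : ℕ} (hl : l.Prime)
    (hw : (l : 𝓞 K) ∈ w) (g : K ≃ₐ[ℚ] K) (h : ∀ x, ph em w g x ^ l = ph em w g x) :
    Ideal.absNorm (pb em w hl hw g).asIdeal = l := by
  rw [Ideal.absNorm_apply, Submodule.cardQuot_apply]
  show Nat.card (𝓞 L ⧸ RingHom.ker (ph em w g)) = l
  rw [Nat.card_congr (RingHom.quotientKerEquivRange (ph em w g)).toEquiv]
  apply le_antisymm
  · have h1 : Nat.card (ph em w g).range = ((ph em w g).range : Set (𝓞 K ⧸ w)).ncard := Nat.card_coe_set_eq _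
    rw [h1]
    refine le_trans (Set.ncard_le_ncard ?_ (Set.toFinite _)) (card_roots_le (k := 𝓞 K ⧸ w) l hl.two_le)
    rintro _ ⟨x, rfl⟩
    exact h x
  · have hch : CharP (ph em w g).range l := by
      rw [CharP.charP_iff_prime_eq_zero hl]
      apply Subtype.ext
      have h2 : ((l : ℕ) : 𝓞 K ⧸ w) = 0 := by
        have h3 : ((l : ℕ) : 𝓞 K ⧸ w) = Ideal.Quotient.mk w (l : 𝓞 K) := (map_natCast _ l).symm
        rw [h3, Ideal.Quotient.eq_zero_iff_mem]
        exact hw
      push_cast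
      exact h2
    have hfact : Fact l.Prime := ⟨hl⟩
    have h4 : Function.Injective (ZMod.castHom (dvd_refl l) (ph em w g).range) := RingHom.injective _
    have h5 := Nat.card_le_card_of_injective _ h4
    rwa [Nat.card_zmod] at h5

/-- Every prime above `l` is a prime below `w` for a suitable conjugate. -/
theorem exists_pb [IsGalois ℚ K] (em : L →+* K) (w : Ideal (𝓞 K)) [w.IsPrime] {l : ℕ} (hl : l.Prime)
    (hw : (l : 𝓞 K) ∈ w) (v : HeightOneSpectrum (𝓞 L)) (hv : (l : 𝓞 L) ∈ v.asIdeal) :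
    ∃ g : K ≃ₐ[ℚ] K, v = pb em w hl hw g := by
  let _ := (RingOfIntegers.mapRingHom em).toAlgebra
  have h3 : Algebra.IsIntegral (𝓞 L) (𝓞 K) := Algebra.IsIntegral.tower_top (R := ℤ)
  have hvp : v.asIdeal.IsPrime := v.isPrime
  have hinj : Function.Injective (RingOfIntegers.mapRingHom em) := by
    intro a b hab
    apply FaithfulSMul.algebraMap_injective (𝓞 L) L
    apply em.injective
    exact congrArg (fun z : 𝓞 K => (z : K)) hab
  obtain ⟨P, -, hP, hPv⟩ := Ideal.exists_ideal_over_prime_of_isIntegral v.asIdeal (⊥ : Ideal (𝓞 K)) (by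
    intro x hx
    rw [Ideal.mem_comap, Ideal.mem_bot] at hx
    have h4 : x = 0 := hinj (by rw [map_zero]; exact hx)
    rw [h4]
    exact v.asIdeal.zero_mem)
  have hlP : (l : 𝓞 K) ∈ P := by
    rw [← hPv, Ideal.mem_comap, map_natCast] at hv
    exact hv
  obtain ⟨g, hg⟩ := trans_above hl hlP hw
  refine ⟨g, ?_⟩
  apply HeightOneSpectrum.ext
  ext x
  show x ∈ v.asIdeal ↔ x ∈ RingHom.ker (ph em w g)
  rw [RingHom.mem_ker, ph_apply, Ideal.Quotient.eq_zero_iff_mem, ← hPv, Ideal.mem_comap]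
  exact hg _

end

theorem n1f : S_EVX → S_RES → S_N1F := by
  intro hEVX hRES K _ _ _ V _ _ _ ι Lf _ _ em rp hrp l hl hsq w hw F hF i
  classical
  have hrpinj : Function.Injective rp := by
    intro a b hab
    exact (hrp.orb (rp a)).unique ⟨1, one_smul _ _⟩ ⟨1, by rw [one_smul, hab]⟩
  have hιfin : Finite ι := Finite.of_injective rp hrpinj
  have hι := Fintype.ofFinite ι
  have hVfin := Fintype.ofFinite V
  obtain ⟨⟨ev, hev⟩, hdeg⟩ := hEVX K V ι Lf em rp hrp
  let n : ι → ℕ := fun j => Fintype.card (Module.Free.ChooseBasisIndex ℤ (𝓞 (Lf j)))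
  let bs : (j : ι) → Module.Basis (Fin (n j)) ℤ (𝓞 (Lf j)) := fun j =>
    (RingOfIntegers.basis (Lf j)).reindex (Fintype.equivFin _)
  obtain ⟨R, hRinj, hRim, hRrd, hRcomp⟩ := hRES K V ι Lf em rp hrp ev hev n bs l hl hsq w hw F hF
  have hwp : w.asIdeal.IsPrime := w.isPrime
  have hfin : Finite (𝓞 K ⧸ w.asIdeal) := Ideal.finiteQuotientOfFreeOfNeBot w.asIdeal w.ne_bot
  have hNZ : NeZero l := ⟨hl.ne_zero⟩
  -- the values
  have hval : ∀ (x : Vc n) (g : K ≃ₐ[ℚ] K), R (rd n l x) (g • rp i) = ph (em i) w.asIdeal g (∑ j, x i j • bs i j) := by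
    intro x g
    rw [hRrd, ph_apply]
    show Ideal.Quotient.mk w.asIdeal (ev (fun i => ∑ j, x i j • bs i j) (g • rp i)) = _
    rw [ev_smul hev]
  have hlift : ∀ y : Vm n l, ∃ x : Vc n, rd n l x = y := by
    intro y
    refine ⟨fun i j => ((y i j).val : ℤ), ?_⟩
    ext i j
    simp [rd]
  -- the homomorphism depends on the point only
  have hdep : ∀ g g' : K ≃ₐ[ℚ] K, g • rp i = g' • rp i → ph (em i) w.asIdeal g = ph (em i) w.asIdeal g' := by
    intro g g' h
    ext x
    rw [ph_apply, ph_apply]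
    have h1 := ev_smul hev (Pi.single i x) i g
    have h2 := ev_smul hev (Pi.single i x) i g'
    rw [Pi.single_eq_same] at h1 h2
    rw [← h1, ← h2, h]
  -- values at fixed points
  have hfix : ∀ g : K ≃ₐ[ℚ] K, F • (g • rp i) = g • rp i → ∀ x, ph (em i) w.asIdeal g x ^ l = ph (em i) w.asIdeal g x := by
    intro g h x
    have h1 := ev_smul hev (Pi.single i x) i g
    rw [Pi.single_eq_same] at h1
    rw [ph_apply, ← h1, ← map_pow]
    symm
    rw [Ideal.Quotient.eq]
    have h2 := hev.eqv (Pi.single i x) F (g • rp i)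
    rw [h] at h2
    exact hF _ _ h2
  let Fx : Set V := {s : V | (∃ g : K ≃ₐ[ℚ] K, g • rp i = s) ∧ F • s = s}
  let G1 : Fx → (K ≃ₐ[ℚ] K) := fun s => s.2.1.choose
  have hG1 : ∀ s : Fx, G1 s • rp i = s.1 := fun s => s.2.1.choose_spec
  let T : Fx → {v : HeightOneSpectrum (𝓞 (Lf i)) // Ideal.absNorm v.asIdeal = l} := fun s =>
    ⟨pb (em i) w.asIdeal hl hw (G1 s), absNorm_pb (em i) w.asIdeal hl hw (G1 s)
      (hfix (G1 s) (by rw [hG1]; exact s.2.2))⟩
  have hT : Function.Bijective T := by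
    constructor
    · intro s s' hss
      by_contra hne
      have hne' : s.1 ≠ s'.1 := fun h => hne (Subtype.ext h)
      have hc : ∀ r : V, (Pi.single s'.1 1 : V → 𝓞 K ⧸ w.asIdeal) (F • r) = (Pi.single s'.1 1 : V → 𝓞 K ⧸ w.asIdeal) r ^ l := by
        intro r
        by_cases h : r = s'.1
        · rw [h, s'.2.2, Pi.single_eq_same, one_pow]
        · have h1 : F • r ≠ s'.1 := by
            intro h2
            apply h
            have h3 : F • r = F • s'.1 := by rw [h2, s'.2.2]
            exact MulAction.injective F h3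
          rw [Pi.single_eq_of_ne h1, Pi.single_eq_of_ne h, zero_pow hl.ne_zero]
      obtain ⟨y, hy⟩ := (hRim _).2 hc
      obtain ⟨x, hx⟩ := hlift y
      have h1 := hval x (G1 s)
      have h2 := hval x (G1 s')
      rw [hG1, hx, hy, Pi.single_eq_of_ne hne'] at h1
      rw [hG1, hx, hy, Pi.single_eq_same] at h2
      have h3 : (∑ j, x i j • bs i j) ∈ (pb (em i) w.asIdeal hl hw (G1 s)).asIdeal := by
        show _ ∈ RingHom.ker (ph (em i) w.asIdeal (G1 s))
        rw [RingHom.mem_ker, ← h1]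
      have h4 : pb (em i) w.asIdeal hl hw (G1 s) = pb (em i) w.asIdeal hl hw (G1 s') := congrArg Subtype.val hss
      rw [h4] at h3
      have h5 : (∑ j, x i j • bs i j) ∈ RingHom.ker (ph (em i) w.asIdeal (G1 s')) := h3
      rw [RingHom.mem_ker, ← h2] at h5
      exact one_ne_zero h5
    · rintro ⟨v, hv⟩
      have hlv : (l : 𝓞 (Lf i)) ∈ v.asIdeal := by
        have := Ideal.absNorm_mem v.asIdeal
        rwa [hv] at this
      obtain ⟨g, hg⟩ := exists_pb (em i) w.asIdeal hl hw v hlv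
      -- the values of the homomorphism
      have hpow : ∀ x, ph (em i) w.asIdeal g x ^ l = ph (em i) w.asIdeal g x := by
        intro x
        have hvmax : v.asIdeal.IsMaximal := v.isMaximal
        let _ := Ideal.Quotient.field v.asIdeal
        have hvfin : Finite (𝓞 (Lf i) ⧸ v.asIdeal) := Ideal.finiteQuotientOfFreeOfNeBot v.asIdeal v.ne_bot
        have hvft := Fintype.ofFinite (𝓞 (Lf i) ⧸ v.asIdeal)
        have h1 : Fintype.card (𝓞 (Lf i) ⧸ v.asIdeal) = l := by
          rw [← Nat.card_eq_fintype_card, ← Submodule.cardQuot_apply, ← Ideal.absNorm_apply, hv]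
        have h2 := FiniteField.pow_card (Ideal.Quotient.mk v.asIdeal x)
        rw [h1, ← map_pow, Ideal.Quotient.eq, hg] at h2
        have h3 : x ^ l - x ∈ RingHom.ker (ph (em i) w.asIdeal g) := h2
        rw [RingHom.mem_ker, map_sub, map_pow, sub_eq_zero] at h3
        exact h3
      have hFs : F • (g • rp i) = g • rp i := by
        by_contra hne
        have hFinj : Function.Injective (fun s : V => F • s) := MulAction.injective F
        have h1 := cnt2 (k := 𝓞 K ⧸ w.asIdeal) (F := fun s : V => F • s) hFinj hl.two_le (s := g • rp i) hne (fun _ => 0)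
        have hcard : Nat.card (Vm n l) = l ^ (univ : Finset V).card := by
          rw [Nat.card_eq_fintype_card, Fintype.card_pi]
          have h1 : ∀ i, Fintype.card (Fin (n i) → ZMod l) = l ^ n i := by
            intro i
            rw [Fintype.card_fun, ZMod.card, Fintype.card_fin]
          rw [prod_congr rfl (fun i _ => h1 i), prod_pow_eq_pow_sum, sum_deg hrp hdeg bs,
            Nat.card_eq_fintype_card, card_univ]
        have h2 : Set.range R ⊆ {c | c ∈ Eq0 l (fun s : V => F • s) univ (fun _ => (0 : 𝓞 K ⧸ w.asIdeal)) ∧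
            c (g • rp i) ^ l = c (g • rp i)} := by
          rintro _ ⟨y, rfl⟩
          refine ⟨⟨(hRim _).1 ⟨y, rfl⟩, fun s hs => absurd (mem_univ s) hs⟩, ?_⟩
          obtain ⟨x, rfl⟩ := hlift y
          rw [hval]
          exact hpow _
        have h3 := Set.ncard_le_ncard h2 (Set.toFinite _)
        rw [← Set.image_univ, Set.ncard_image_of_injective _ hRinj, Set.ncard_univ, hcard] at h3
        omega
      refine ⟨⟨g • rp i, ⟨g, rfl⟩, hFs⟩, ?_⟩
      apply Subtype.ext
      show pb (em i) w.asIdeal hl hw (G1 ⟨g • rp i, ⟨g, rfl⟩, hFs⟩) = v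
      rw [hg]
      apply HeightOneSpectrum.ext
      have h6 := hdep (G1 ⟨g • rp i, ⟨g, rfl⟩, hFs⟩) g (hG1 ⟨g • rp i, ⟨g, rfl⟩, hFs⟩)
      show RingHom.ker (ph (em i) w.asIdeal (G1 ⟨g • rp i, ⟨g, rfl⟩, hFs⟩)) = RingHom.ker (ph (em i) w.asIdeal g)
      rw [h6]
  have hcard := Nat.card_congr (Equiv.ofBijective T hT)
  show Nat.card {v : HeightOneSpectrum (𝓞 (Lf i)) // Ideal.absNorm v.asIdeal = l} = Fx.ncard
  rw [← hcard]
  exact Nat.card_coe_set_eq _

end Pool.Agent.Q299.ESM
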